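import Pool.Agent.Helper62.PM.St4

/-!
# Project PM, module NP: the poles
-/

set_option autoImplicit false

open MeasureTheory Metric Set Filter Topology
open scoped RealInnerProductSpace ContDiff

namespace Pool.Agent.Helper73.PM

open Pool.Agent.Helper62.PM
open Pool.Agent.Helper62.Mink

private noncomputable def ch (s : ℝ) : ℝ := 5 / 6 - s ^ 2 / 2 + s ^ 3 / 3

private noncomputable def qq (ε t : ℝ) : ℝ := √(1 - t ^ 2 + ε ^ 2)

private noncomputable def kk (σ ε t : ℝ) : ℝ := ch (σ * t) / qq ε t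

private noncomputable def ps (σ ε t : ℝ) : ℝ := (1 - σ * t) / qq ε t - ch (σ * t) / qq ε t ^ 3

private theorem ch_nonneg {s : ℝ} (h1 : -1 ≤ s) : 0 ≤ ch s := by
  have h : ch s = (s + 1) * (s ^ 2 / 3 - 5 * s / 6 + 5 / 6) := by unfold ch; ring
  rw [h]
  exact mul_nonneg (by linarith) (by nlinarith [sq_nonneg (s - 5 / 4)])

private theorem ch_le {s : ℝ} (h1 : s ≤ 1) : ch s ≤ 1 := by
  unfold ch
  have h : s ^ 3 ≤ s ^ 2 := by nlinarith [mul_nonneg (sq_nonneg s) (show (0 : ℝ) ≤ 1 - s by linarith)]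
  nlinarith [sq_nonneg s]

private theorem arg_pos {ε t : ℝ} (hε : 0 < ε) (ht : t ^ 2 < 1 + ε ^ 2 / 2) : 0 < 1 - t ^ 2 + ε ^ 2 := by
  have : 0 < ε ^ 2 := by positivity
  linarith

private theorem mem_r {ε t : ℝ} (ht : t ∈ Ioo (-√(1 + ε ^ 2 / 2)) (√(1 + ε ^ 2 / 2))) :
    t ^ 2 < 1 + ε ^ 2 / 2 := by
  have h1 : |t| < √(1 + ε ^ 2 / 2) := abs_lt.2 ht
  have h2 := Real.sq_sqrt (show (0 : ℝ) ≤ 1 + ε ^ 2 / 2 by positivity)
  have h3 : |t| ^ 2 < √(1 + ε ^ 2 / 2) ^ 2 := pow_lt_pow_left₀ h1 (abs_nonneg t) (by norm_num)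
  rw [h2, sq_abs] at h3
  exact h3

private theorem hderiv {σ ε t : ℝ} (hσ : σ * σ = 1) (hε : 0 < ε) (ht : t ^ 2 < 1 + ε ^ 2 / 2) :
    HasDerivAt (kk σ ε) (-(t * ps σ ε t)) t := by
  have hp := arg_pos hε ht
  have hq0 : 0 < qq ε t := Real.sqrt_pos.2 hp
  have h1 : HasDerivAt (fun t : ℝ => 1 - t ^ 2 + ε ^ 2) (-(2 * t)) t := by
    have h := ((hasDerivAt_pow 2 t).const_sub 1).add_const (ε ^ 2)
    exact h.congr_deriv (by norm_num)
  have hq : HasDerivAt (qq ε) (-(2 * t) / (2 * qq ε t)) t := h1.sqrt hp.ne'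
  have h2 : HasDerivAt (fun t : ℝ => ch (σ * t)) (-(σ * t) * (1 - σ * t) * σ) t := by
    have h3 : HasDerivAt (fun t : ℝ => σ * t) σ t := by simpa using (hasDerivAt_id t).const_mul σ
    have h4 : HasDerivAt ch (-(σ * t) * (1 - σ * t)) (σ * t) := by
      have h5 := (((hasDerivAt_pow 2 (σ * t)).div_const 2).const_sub (5 / 6)).add
        ((hasDerivAt_pow 3 (σ * t)).div_const 3)
      exact h5.congr_deriv (by norm_num; ring)
    exact h4.comp t h3
  have h6 := h2.div hq hq0.ne'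
  refine h6.congr_deriv ?_
  unfold ps
  have hne := hq0.ne'
  field_simp
  linear_combination (-(t * qq ε t ^ 2) + t ^ 2 * σ * qq ε t ^ 2) * hσ

private theorem smooth {σ ε : ℝ} (hε : 0 < ε) :
    ContDiffOn ℝ ∞ (ps σ ε) (Ioo (-√(1 + ε ^ 2 / 2)) (√(1 + ε ^ 2 / 2))) := by
  have hq : ContDiffOn ℝ ∞ (qq ε) (Ioo (-√(1 + ε ^ 2 / 2)) (√(1 + ε ^ 2 / 2))) := by
    refine ContDiffOn.sqrt ?_ fun t ht => (arg_pos hε (mem_r ht)).ne'
    fun_prop
  have hne : ∀ t ∈ Ioo (-√(1 + ε ^ 2 / 2)) (√(1 + ε ^ 2 / 2)), qq ε t ≠ 0 := fun t ht =>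
    (Real.sqrt_pos.2 (arg_pos hε (mem_r ht))).ne'
  have h1 : ContDiffOn ℝ ∞ (fun t : ℝ => 1 - σ * t) (Ioo (-√(1 + ε ^ 2 / 2)) (√(1 + ε ^ 2 / 2))) := by
    fun_prop
  have h2 : ContDiffOn ℝ ∞ (fun t : ℝ => ch (σ * t)) (Ioo (-√(1 + ε ^ 2 / 2)) (√(1 + ε ^ 2 / 2))) := by
    unfold ch
    fun_prop
  exact (h1.div hq hne).sub (h2.div (hq.pow 3) fun t ht => pow_ne_zero 3 (hne t ht))

/-- the test function -/
private noncomputable def FF (N σ ε t : ℝ) : ℝ := (1 - t ^ 2) * ps σ ε t + (N - 1) * kk σ ε t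

private theorem st_mem {σ t : ℝ} (hσ : σ = 1 ∨ σ = -1) (ht : t ∈ Icc (-1 : ℝ) 1) : σ * t ∈ Icc (-1 : ℝ) 1 := by
  rcases hσ with rfl | rfl
  · simpa using ht
  · rw [mem_Icc] at ht ⊢
    constructor <;> linarith

private theorem sq_le {t : ℝ} (ht : t ∈ Icc (-1 : ℝ) 1) : t ^ 2 ≤ 1 := by
  rw [mem_Icc] at ht
  nlinarith

private theorem kk_nonneg {σ ε t : ℝ} (hσ : σ = 1 ∨ σ = -1) (ht : t ∈ Icc (-1 : ℝ) 1) : 0 ≤ kk σ ε t :=
  div_nonneg (ch_nonneg (st_mem hσ ht).1) (Real.sqrt_nonneg _)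

private theorem pos2 {σ ε t : ℝ} (hσ : σ = 1 ∨ σ = -1) (hε : 0 < ε) (ht : t ∈ Icc (-1 : ℝ) 1) :
    0 ≤ (1 - t ^ 2) * ps σ ε t + kk σ ε t := by
  have hu := sq_le ht
  have hp : 0 < 1 - t ^ 2 + ε ^ 2 := by
    have : 0 < ε ^ 2 := by positivity
    linarith
  have hq0 : 0 < qq ε t := Real.sqrt_pos.2 hp
  have hq2 : qq ε t ^ 2 = 1 - t ^ 2 + ε ^ 2 := Real.sq_sqrt hp.le
  have h1 : (1 - t ^ 2) * ps σ ε t + kk σ ε t =
      (1 - t ^ 2) * (1 - σ * t) / qq ε t + ch (σ * t) * ε ^ 2 / qq ε t ^ 3 := by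
    unfold ps kk
    have hne := hq0.ne'
    generalize ch (σ * t) = c
    field_simp
    linear_combination c * hq2
  rw [h1]
  have h2 := st_mem hσ ht
  have h3 := ch_nonneg h2.1
  have h4 : 0 ≤ 1 - σ * t := by linarith [h2.2]
  have h5 : 0 ≤ 1 - t ^ 2 := by linarith
  positivity

private theorem bound {N σ ε t : ℝ} (hN : 1 ≤ N) (hσ : σ = 1 ∨ σ = -1) (hε : 0 < ε)
    (ht : t ∈ Icc (-1 : ℝ) 1) : |ε * FF N σ ε t| ≤ N + 2 := by
  have hu := sq_le ht
  have hu0 : 0 ≤ t ^ 2 := sq_nonneg t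
  have he2 : 0 < ε ^ 2 := by positivity
  have hp : 0 < 1 - t ^ 2 + ε ^ 2 := by linarith
  have hq0 : 0 < qq ε t := Real.sqrt_pos.2 hp
  have hq2 : qq ε t ^ 2 = 1 - t ^ 2 + ε ^ 2 := Real.sq_sqrt hp.le
  have hne := hq0.ne'
  have hx0 : 0 ≤ ε / qq ε t := by positivity
  have hx1 : ε / qq ε t ≤ 1 := by
    rw [div_le_one hq0]
    exact Real.le_sqrt_of_sq_le (by linarith)
  have hy0 : 0 ≤ (1 - t ^ 2) / qq ε t ^ 2 := div_nonneg (by linarith) (by positivity)
  have hy1 : (1 - t ^ 2) / qq ε t ^ 2 ≤ 1 := by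
    rw [div_le_one (by positivity), hq2]
    linarith
  have h2 := st_mem hσ ht
  have h3 := ch_nonneg h2.1
  have h3' := ch_le h2.2
  have h4 : 0 ≤ 1 - σ * t := by linarith [h2.2]
  have h4' : 1 - σ * t ≤ 2 := by linarith [h2.1]
  have e : ε * FF N σ ε t = (1 - t ^ 2) * (1 - σ * t) * (ε / qq ε t) -
      ch (σ * t) * ((ε / qq ε t) * ((1 - t ^ 2) / qq ε t ^ 2)) +
      (N - 1) * (ch (σ * t) * (ε / qq ε t)) := by
    unfold FF ps kk
    field_simp
  have a1 : 0 ≤ (1 - t ^ 2) * (1 - σ * t) := mul_nonneg (by linarith) h4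
  have a2 : (1 - t ^ 2) * (1 - σ * t) ≤ 1 * 2 := mul_le_mul (by linarith) h4' h4 (by norm_num)
  have b1 : 0 ≤ (1 - t ^ 2) * (1 - σ * t) * (ε / qq ε t) := mul_nonneg a1 hx0
  have b2 : (1 - t ^ 2) * (1 - σ * t) * (ε / qq ε t) ≤ 1 * 2 * 1 := mul_le_mul a2 hx1 hx0 (by norm_num)
  have c1 : 0 ≤ (ε / qq ε t) * ((1 - t ^ 2) / qq ε t ^ 2) := mul_nonneg hx0 hy0
  have c2 : (ε / qq ε t) * ((1 - t ^ 2) / qq ε t ^ 2) ≤ 1 * 1 := mul_le_mul hx1 hy1 hy0 (by norm_num)
  have d1 : 0 ≤ ch (σ * t) * ((ε / qq ε t) * ((1 - t ^ 2) / qq ε t ^ 2)) := mul_nonneg h3 c1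
  have d2 : ch (σ * t) * ((ε / qq ε t) * ((1 - t ^ 2) / qq ε t ^ 2)) ≤ 1 * (1 * 1) :=
    mul_le_mul h3' c2 c1 (by norm_num)
  have f1 : 0 ≤ ch (σ * t) * (ε / qq ε t) := mul_nonneg h3 hx0
  have f2 : ch (σ * t) * (ε / qq ε t) ≤ 1 * 1 := mul_le_mul h3' hx1 hx0 (by norm_num)
  have g1 : 0 ≤ (N - 1) * (ch (σ * t) * (ε / qq ε t)) := mul_nonneg (by linarith) f1
  have g2 : (N - 1) * (ch (σ * t) * (ε / qq ε t)) ≤ (N - 1) * (1 * 1) :=
    mul_le_mul_of_nonneg_left f2 (by linarith)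
  rw [e, abs_le]
  constructor
  · linarith
  · linarith

private theorem at_pole {N σ ε : ℝ} (hσ : σ = 1 ∨ σ = -1) (hε : 0 < ε) :
    ε * FF N σ ε σ = (N - 1) * (2 / 3) := by
  have h1 : σ ^ 2 = 1 := by rcases hσ with rfl | rfl <;> norm_num
  have h2 : σ * σ = 1 := by rw [← h1]; ring
  have hq : qq ε σ = ε := by
    unfold qq
    rw [h1, sub_self, zero_add, Real.sqrt_sq hε.le]
  unfold FF kk
  rw [h1, h2, hq, sub_self, zero_mul, zero_add]
  unfold ch
  have hne := hε.ne'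
  field_simp
  ring

private theorem at_other {N σ ε : ℝ} (hσ : σ = 1 ∨ σ = -1) : ε * FF N σ ε (-σ) = 0 := by
  have h1 : (-σ) ^ 2 = 1 := by rcases hσ with rfl | rfl <;> norm_num
  have h2 : σ * -σ = -1 := by rcases hσ with rfl | rfl <;> norm_num
  unfold FF kk
  rw [h1, h2, sub_self, zero_mul, zero_add]
  have h3 : ch (-1) = 0 := by unfold ch; norm_num
  rw [h3, zero_div, mul_zero, mul_zero]

private theorem inside {N σ t : ℝ} (ht : t ^ 2 < 1) : Tendsto (fun ε : ℝ => ε * FF N σ ε t) (𝓝 0) (𝓝 0) := by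
  have hq : ContinuousAt (fun ε : ℝ => qq ε t) 0 := by
    unfold qq
    fun_prop
  have hne : qq 0 t ≠ 0 := by
    unfold qq
    exact (Real.sqrt_pos.2 (by linarith)).ne'
  have hF : ContinuousAt (fun ε : ℝ => FF N σ ε t) 0 := by
    unfold FF ps kk
    exact (continuousAt_const.mul ((continuousAt_const.div hq hne).sub
      (continuousAt_const.div (hq.pow 3) (pow_ne_zero 3 hne)))).add
      (continuousAt_const.mul (continuousAt_const.div hq hne))
  have h : Tendsto (fun ε : ℝ => ε * FF N σ ε t) (𝓝 0) (𝓝 (0 * FF N σ 0 t)) :=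
    (continuousAt_id.mul hF).tendsto
  rwa [zero_mul] at h

private theorem measF (N σ ε : ℝ) : Measurable (FF N σ ε) := by
  unfold FF ps kk qq ch
  fun_prop

private theorem lim {n : ℕ} (e : E n) (he : ‖e‖ = 1) (N σ : ℝ) (hN : 1 ≤ N) (hσ : σ = 1 ∨ σ = -1)
    (μ : Measure (sphere (0 : E n) 1)) [IsFiniteMeasure μ] :
    Tendsto (fun j : ℕ => ∫ w : sphere (0 : E n) 1, (1 / ((j : ℝ) + 2)) * FF N σ (1 / ((j : ℝ) + 2))
      (inner ℝ e (w : E n)) ∂μ) atTop (𝓝 ((N - 1) * (2 / 3) * (μ {w | (inner ℝ e (w : E n) : ℝ) = σ}).toReal)) := by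
  have hcont : Continuous (fun w : sphere (0 : E n) 1 => (inner ℝ e (w : E n) : ℝ)) := by fun_prop
  have hm : Measurable (fun w : sphere (0 : E n) 1 => (inner ℝ e (w : E n) : ℝ)) := hcont.measurable
  have hset : MeasurableSet {w : sphere (0 : E n) 1 | (inner ℝ e (w : E n) : ℝ) = σ} :=
    (isClosed_eq hcont continuous_const).measurableSet
  have hI : ∫ w : sphere (0 : E n) 1, ({w : sphere (0 : E n) 1 | (inner ℝ e (w : E n) : ℝ) = σ}).indicator
      (fun _ => (N - 1) * (2 / 3)) w ∂μ =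
      (N - 1) * (2 / 3) * (μ {w | (inner ℝ e (w : E n) : ℝ) = σ}).toReal := by
    rw [integral_indicator_const _ hset]
    rw [smul_eq_mul, mul_comm]
    rfl
  rw [← hI]
  have hmem : ∀ w : sphere (0 : E n) 1, (inner ℝ e (w : E n) : ℝ) ∈ Icc (-1 : ℝ) 1 := by
    intro w
    have h1 := abs_real_inner_le_norm e (w : E n)
    have h2 : ‖(w : E n)‖ = 1 := by simp
    rw [he, h2, mul_one] at h1
    exact abs_le.1 h1
  have hε : ∀ j : ℕ, (0 : ℝ) < 1 / ((j : ℝ) + 2) := fun j => by positivity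
  refine tendsto_integral_of_dominated_convergence (fun _ => N + 2) ?_ (integrable_const _) ?_ ?_
  · intro j
    exact (((measF N σ _).comp hm).const_mul _).aestronglyMeasurable
  · intro j
    refine Filter.Eventually.of_forall fun w => ?_
    rw [Real.norm_eq_abs]
    exact bound hN hσ (hε j) (hmem w)
  · refine Filter.Eventually.of_forall fun w => ?_
    have h1 := hmem w
    have h0 : Tendsto (fun j : ℕ => 1 / ((j : ℝ) + 2)) atTop (𝓝 0) := by
      have h2 : Tendsto (fun j : ℕ => (j : ℝ) + 2) atTop atTop :=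
        tendsto_atTop_add_const_right _ _ tendsto_natCast_atTop_atTop
      have h3 : Tendsto (fun j : ℕ => ((j : ℝ) + 2)⁻¹) atTop (𝓝 0) := h2.inv_tendsto_atTop
      simpa only [one_div] using h3
    by_cases hw : (inner ℝ e (w : E n) : ℝ) = σ
    · rw [indicator_of_mem (by exact hw), hw]
      have h3 : (fun j : ℕ => 1 / ((j : ℝ) + 2) * FF N σ (1 / ((j : ℝ) + 2)) σ) = fun _ => (N - 1) * (2 / 3) := by
        funext j
        exact at_pole hσ (hε j)
      rw [h3]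
      exact tendsto_const_nhds
    · rw [indicator_of_notMem (by exact hw)]
      by_cases hw2 : (inner ℝ e (w : E n) : ℝ) = -σ
      · rw [hw2]
        have h3 : (fun j : ℕ => 1 / ((j : ℝ) + 2) * FF N σ (1 / ((j : ℝ) + 2)) (-σ)) = fun _ => 0 := by
          funext j
          exact at_other hσ
        rw [h3]
        exact tendsto_const_nhds
      · have h4 : (inner ℝ e (w : E n) : ℝ) ^ 2 < 1 := by
          have h5 := sq_le h1
          rcases lt_or_eq_of_le h5 with h6 | h6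
          · exact h6
          · exfalso
            rcases mul_eq_zero.1 (show ((inner ℝ e (w : E n) : ℝ) - 1) * ((inner ℝ e (w : E n) : ℝ) + 1) = 0
              by linear_combination h6) with h7 | h7
            · rcases hσ with rfl | rfl
              · exact hw (by linarith)
              · exact hw2 (by linarith)
            · rcases hσ with rfl | rfl
              · exact hw2 (by linarith)
              · exact hw (by linarith)
        exact (inside h4).comp h0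

/-- Module NP. -/
theorem hNP : StNB → StNP := by
  intro hNB n e P N T hn he hP hN hZP hZN hG σ hσ
  have hσ2 : σ * σ = 1 := by rcases hσ with rfl | rfl <;> norm_num
  have hnR : (3 : ℝ) ≤ n := by exact_mod_cast hn
  have hineq : ∀ ε : ℝ, 0 < ε → ∫ w : sphere (0 : E n) 1, ε * FF n σ ε (inner ℝ e (w : E n)) ∂N ≤
      ∫ w : sphere (0 : E n) 1, ε * FF n σ ε (inner ℝ e (w : E n)) ∂P := by
    intro ε hε
    have hr : 1 < √(1 + ε ^ 2 / 2) := by
      rw [Real.lt_sqrt (by norm_num)]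
      have : 0 < ε ^ 2 := by positivity
      linarith
    have h := hNB n e P N T (kk σ ε) (ps σ ε) (√(1 + ε ^ 2 / 2)) hn he hP hN hZP hZN hG hr (smooth hε)
      (fun t ht => hderiv hσ2 hε (mem_r ht)) (fun t ht => kk_nonneg hσ ht) (fun t ht => pos2 hσ hε ht)
    rw [integral_const_mul, integral_const_mul]
    exact mul_le_mul_of_nonneg_left h hε.le
  have hlN := lim e he (n : ℝ) σ (by linarith) hσ N
  have hlP := lim e he (n : ℝ) σ (by linarith) hσ P
  have hle := le_of_tendsto_of_tendsto' hlN hlP fun j => hineq _ (by positivity)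
  have hpos : 0 < ((n : ℝ) - 1) * (2 / 3) := by nlinarith
  have h2 := le_of_mul_le_mul_left hle hpos
  exact (ENNReal.toReal_le_toReal (measure_ne_top _ _) (measure_ne_top _ _)).1 h2

end Pool.Agent.Helper73.PM
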